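import Pool.Agent.H87.VA.All

set_option autoImplicit false

/-!
# First integrals of irrational polygonal billiards which are continuous at the vertices

Problem MP_d5e7a1_an asks whether the billiard flow of every irrational polygon is ergodic.  We
prove, for every irrational polygonal table, that a flow invariant measurable function `f` such that
for almost every fixed direction `θ` the function `f (·, θ)` is uniformly continuous in the position
at the vertices, with any modulus of continuity `ω (·, θ)` which is measurable in `θ`, is constant
almost everywhere.  Nothing is assumed about the dependence on the direction, about a rate, or about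
the behaviour of `f` away from the vertices.

Idea of the proof.  Let `f_ε` be the average of `f` over perpendicular displacements of size `ε`,
and `v_ε` its derivative in the perpendicular direction.  Consider states with two directions
`(x, θ, η)` and move `x` in direction `η`, reflecting both directions at the sides.  For an odd
weight `w` the function `w (η - θ) * v_ε (x, η) * f_ε (x, θ)` changes only through its last factor.
As the motion preserves the measure, `∫ w (η - θ) * sin (η - θ) * v_ε (x, η) * v_ε (x, θ)` is
a boundary term at the vertices.  With `w = sin (n ·)` the left side is the difference of the mean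
squares of the Fourier modes number `n - 1` and `n + 1` of `v_ε`; the sum over all `n` of the
boundary terms is bounded, by Bessel's inequality for both factors, by the oscillation of `f` at
the vertices.  As the modes of `v_ε` tend to zero for fixed `ε`, each of them is bounded by this
oscillation.  Hence all Fourier modes of `f` are locally constant in the position, so `f` depends
only on the direction, and the reflections in two sides with an angle not in `π ℚ` generate an
irrational rotation of the direction.
-/

namespace Pool.Agent.Results.MP_d5e7a1_an.ContinuousAtVertices

open H82.Bil MeasureTheory Set Filter Topology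

/-- Let `T` be a polygonal table with two sides whose angle is not a rational multiple of `π`, let
`V` be its set of vertices, and let `f` be a measurable function on the phase space which is
invariant under the billiard flow. Suppose that for almost every direction `θ`,
`|f (x, θ) - f (y, θ)| ≤ ω r θ` for all `0 < r ≤ r₀` and all segments `[x, y]` in the interior `U`
of the table with `|x - y| ≤ r` and `dist (x, V) ≤ r`, where `ω r` is measurable for each `r`, and
`ω r θ` tends to `0` as `r` decreases to `0` for almost every `θ`. Then `f` is almost everywhere
constant on the phase space `U × (ℝ / 2 π ℤ)`. -/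
theorem result (T : Table) (i j : T.ι)
    (hirr : Irrational ((Complex.arg (T.d i) - Complex.arg (T.d j)) / Real.pi))
    (f : ℂ × Dir → ℝ) (hf : Measurable f) (hinv : FlowInvariant T f) (r₀ : ℝ) (hr₀ : 0 < r₀)
    (ω : ℝ → Dir → ℝ) (hω : ∀ r, 0 < r → r ≤ r₀ → Measurable (ω r))
    (hlim : ∀ᵐ θ : Dir, Tendsto (fun r => ω r θ) (𝓝[>] 0) (𝓝 0))
    (hcont : ∀ᵐ θ : Dir, ∀ r : ℝ, 0 < r → r ≤ r₀ → ∀ x y : ℂ, segment ℝ x y ⊆ T.U →
      ‖x - y‖ ≤ r → Metric.infDist x T.V ≤ r → |f (x, θ) - f (y, θ)| ≤ ω r θ) :
    ∃ c : ℝ, ∀ᵐ a ∂(volume.restrict (T.U ×ˢ (univ : Set Dir))), f a = c :=
  H87.VA.all3' T i j hirr f hf hinv r₀ hr₀ ω hω hlim hcont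

end Pool.Agent.Results.MP_d5e7a1_an.ContinuousAtVertices
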