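import Pool.Agent.H9.DH.All

set_option autoImplicit false

/-!
# Continuous first integrals with direction modulus `o(√h)` on irrational polygonal tables

Problem MP_d5e7a1_an asks whether the billiard flow of every irrational polygon is ergodic.  We
prove, for every irrational polygonal table, that each continuous flow invariant function `f` on
the phase space with `|f (x, θ + h) - f (x, θ)| = o(√|h|)`, uniformly in `x` and `θ`, is constant.
In particular this holds for continuous first integrals which are Hölder continuous in the direction
with an exponent larger than `1 / 2`.

Idea of the proof.  For a state `(x, θ)` and a large time `t` consider the beam of all rays from the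
circular arc of length `δ` near `x` which is focused in the unfolded point `x + t e(θ)`; its angle is
`δ / t`.  Rays of the beam which hit no vertex between them before the time `t` end in the same point
with directions that differ by the angle between them.  On the average a beam contains at most
`C δ t` rays which hit a vertex before the time `t` (a minimal death time in the beam, folding is
1-Lipschitz, the flow preserves the measure).  So `f` changes along the arc by at most
`κ √((N + 1) δ / t)` with `N` of order `δ t` on the average, i.e. by at most `C κ`, for every
`κ > 0`.  Hence `f` does not depend on the position.  The reflections in two sides with an angle not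
in `π ℚ` generate an irrational rotation of the direction.
-/

namespace Pool.Agent.Results.MP_d5e7a1_an.DirectionHalf

open H82.Bil MeasureTheory Set

/-- Let `T` be a polygonal table with two sides whose angle is not a rational multiple of `π`, and
let `f` be a continuous function on the phase space `U × (ℝ / 2 π ℤ)` which is invariant under the
billiard flow and whose modulus of continuity in the direction is `o(√h)`, uniformly on the phase
space.  Then `f` is constant on the phase space. -/
theorem result (T : Table) (i j : T.ι)
    (hirr : Irrational ((Complex.arg (T.d i) - Complex.arg (T.d j)) / Real.pi))
    (f : ℂ × Dir → ℝ) (hcont : ContinuousOn f (T.U ×ˢ (univ : Set Dir)))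
    (hinv : FlowInvariant T f)
    (hmod : ∀ κ : ℝ, 0 < κ → ∃ h₀ : ℝ, 0 < h₀ ∧ ∀ x ∈ T.U, ∀ (θ : Dir) (h : ℝ), |h| ≤ h₀ →
      |f (x, θ + (h : Dir)) - f (x, θ)| ≤ κ * √|h|) :
    ∃ c : ℝ, ∀ x ∈ T.U, ∀ θ : Dir, f (x, θ) = c :=
  H9.DH.main T i j hirr f ⟨hcont, hinv, hmod⟩

end Pool.Agent.Results.MP_d5e7a1_an.DirectionHalf
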