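import Pool.Agent.H82.Bil.Final

set_option autoImplicit false

/-!
# Invariant functions of finite angular variation on irrational polygonal tables are constant

Problem MP_d5e7a1_an asks whether the billiard flow of every irrational polygon is ergodic.  We
prove, for every irrational polygonal table, that each flow invariant measurable function `f`
whose variation in the direction is finite, i.e. `∫ |f (x, θ + ε) - f (x, θ)| ≤ C |ε|`, is constant
almost everywhere.  So an invariant set which violates ergodicity has infinite perimeter in the
direction variable.

Idea of the proof.  Compare `(x, θ)` with the point `x'` at distance `δ` to the left of `x` and the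
direction `θ'` turned such that the two rays meet at time `t`: if no vertex lies between the rays,
the two states end at the same place with directions which differ by `arctan (δ / t)`.  Hence the
variation of `f` orthogonal to `θ` is at most `3 C / t` away from the rays which hit a vertex before
time `t`.  The same is true backwards in time, and except for countably many directions no point
is singular both forwards and backwards; so `f` does not depend on the position.  The reflections
in two sides with an angle not in `π ℚ` generate an irrational rotation of the direction.
-/

namespace Pool.Agent.Results.MP_d5e7a1_an.FiniteAngularVariation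

open H82.Bil MeasureTheory Set

/-- Let `T` be a polygonal table with two sides whose angle is not a rational multiple of `π`, and
let `f` be a measurable function on the phase space which is invariant under the billiard flow and
satisfies `∫ |f (x, θ + ε) - f (x, θ)| dx dθ ≤ C |ε|` for all `ε`. Then `f` is almost everywhere
constant on the phase space `U × (ℝ / 2 π ℤ)`. -/
theorem result (T : Table) (i j : T.ι)
    (hirr : Irrational ((Complex.arg (T.d i) - Complex.arg (T.d j)) / Real.pi))
    (f : ℂ × Dir → ℝ) (hf : Measurable f) (hinv : FlowInvariant T f) (C : ℝ)
    (hvar : ∀ ε : ℝ, ∫⁻ a in T.U ×ˢ (univ : Set Dir),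
      ENNReal.ofReal |f (a.1, a.2 + (ε : Dir)) - f a| ≤ ENNReal.ofReal (C * |ε|)) :
    ∃ c : ℝ, ∀ᵐ a ∂(volume.restrict (T.U ×ˢ (univ : Set Dir))), f a = c := by
  have hadm : Adm T f (max C 0) := by
    refine ⟨hf, fun w a t b h => hinv.step h, fun ε => ?_⟩
    have h1 := hvar (-ε)
    rw [abs_neg] at h1
    have h2 : ENNReal.ofReal (C * |ε|) ≤ ENNReal.ofReal (max C 0 * |ε|) :=
      ENNReal.ofReal_le_ofReal (mul_le_mul_of_nonneg_right (le_max_left _ _) (abs_nonneg _))
    refine le_trans (le_of_eq ?_) (h1.trans h2)
    refine lintegral_congr fun a => ?_
    simp only [tn, Real.enorm_eq_ofReal_abs, AddCircle.coe_neg, sub_eq_add_neg]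
  exact hadm.const (le_max_right _ _) hirr

end Pool.Agent.Results.MP_d5e7a1_an.FiniteAngularVariation
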