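import Pool.Agent.H87.VA.All

set_option autoImplicit false

/-!
# The velocity averages of every first integral of a polygonal billiard are in `H¹`

Problem MP_d5e7a1_an asks whether the billiard flow of every irrational polygon is ergodic, that is,
whether every bounded measurable flow invariant function is constant.  We prove a regularity
property of all these functions, in every polygonal table: the angular Fourier modes
`x ↦ ∫ e^{i n θ} f (x, θ) dθ` have a gradient which is square integrable over the table, with
a bound which depends only on the table and on the supremum of `|f|`, not on `n`.  For `n = 0` and
the indicator function of an invariant set this is the local density of the set.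

Idea of the proof.  Let `f_ε` be the average of `f` over perpendicular displacements of size `ε`,
and `v_ε` its derivative in the perpendicular direction.  Consider states with two directions
`(x, θ, η)` and move `x` in direction `η`, reflecting both directions at the sides.  For an odd
weight `w` the function `w (η - θ) * v_ε (x, η) * f_ε (x, θ)` changes only through its last factor.
As the motion preserves the measure, `∫ w (η - θ) * sin (η - θ) * v_ε (x, η) * v_ε (x, θ)` is
a boundary term at the vertices.  With `w = sin (n ·)` the left side is the difference of the mean
squares of the Fourier modes number `n - 1` and `n + 1` of `v_ε`; the sum over all `n` of the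
boundary terms is bounded independently of `ε`, by Bessel's inequality for both factors, and the
modes of `v_ε` tend to zero for fixed `ε`.  So each of them is bounded, and they are the
derivatives of the modes of `f_ε`.
-/

namespace Pool.Agent.Results.MP_d5e7a1_an.VelocityAverages

open H82.Bil MeasureTheory Set

/-- For every polygonal table `T` with interior `U` there is a constant `K` such that for every
measurable function `f` with `|f| ≤ 1` on the phase space `U × (ℝ / 2 π ℤ)` which is invariant under
the billiard flow, every integer `n` and every vector `r`, the mode
`a (x) = ∫ e^{i n θ} f (x, θ) dθ` satisfies `∫ |a (x + r) - a (x)|² dx ≤ K |r|²`, where `x` runs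
over the points such that the segment `[x, x + r]` is contained in `U`. -/
theorem result (T : Table) : ∃ K : ℝ, ∀ f : ℂ × Dir → ℝ, Measurable f → FlowInvariant T f →
    (∀ x ∈ T.U, ∀ θ : Dir, |f (x, θ)| ≤ 1) → ∀ (n : ℤ) (r : ℂ),
    ∫ x in {x | segment ℝ x (x + r) ⊆ T.U},
      ‖(∫ θ : Dir, e θ ^ n * (f (x + r, θ) : ℂ)) - ∫ θ : Dir, e θ ^ n * (f (x, θ) : ℂ)‖ ^ 2
      ≤ K * ‖r‖ ^ 2 :=
  H87.VA.all2 T

end Pool.Agent.Results.MP_d5e7a1_an.VelocityAverages
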